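import Pool.Agent.H5.QH.Targets

/-!
# Row HTI1: one isotropic vector
-/

set_option autoImplicit false

open NumberField IsDedekindDomain Matrix Pool.Agent.H32.QC Pool.Agent.H34.N6 Pool.Agent.H5.QH

namespace Pool.Agent.H17.QH

theorem ti1_val {F : Type} [Field F] {n : ℕ} (a x : Fin n → F) :
    x ⬝ᵥ diagonal a *ᵥ x = ∑ i, a i * x i ^ 2 := by
  simp only [dotProduct, mulVec_diagonal]
  exact Finset.sum_congr rfl fun i _ => by ring

theorem pf_TI1 : T_TI1 := by
  intro F _ n a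
  have h1 : ∀ r : ℕ, TI (diagonal a) (r + 1) → Iso a := by
    rintro r ⟨b, hb, hA⟩
    refine ⟨b 0, hb.ne_zero 0, ?_⟩
    have h := hA 0 0
    rwa [ti1_val] at h
  refine ⟨⟨h1 0, ?_⟩, h1⟩
  rintro ⟨x, hx, h⟩
  refine ⟨fun _ => x, ?_, fun i j => ?_⟩
  · exact LinearIndependent.of_subsingleton 0 hx
  · rw [ti1_val]
    exact h

end Pool.Agent.H17.QH
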